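import Pool.Agent.Work.MP_5ab958_co.Main

namespace Pool.Agent.Results.MP_5ab958_co.BoundedSat

open Pool.Agent.Work.MP_5ab958_co

/-- If the minimal edge of a finite edge-ordered graph `F` is isolated, then for all large `n`
there is an `n`-vertex edge-ordered graph with at most `C` edges that avoids `F` and in which
every added edge of new smallest label creates a copy of `F`. -/
theorem result {W : Type} [Finite W] (F : EOGraph W) (hF : IsolatedMinEdge F) :
    ∃ C n₀ : ℕ, ∀ n, n₀ ≤ n →
      ∃ H : EOGraph (Fin n), MinSaturated H F ∧ H.G.edgeSet.ncard ≤ C :=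
  bounded_saturation F hF

end Pool.Agent.Results.MP_5ab958_co.BoundedSat
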